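import Pool.Agent.Lib_MP_331e4f_am.Trans
import Pool.Agent.Lib_MP_331e4f_am.Central

/-!
# Nonamenable subgroups of groups with `J(K[G]) = omega(K[G])`

The proof: for a nonamenable group `P` there is, over every field, an injective square matrix of
positive size with entries in the augmentation ideal of the group algebra (expansion of a finite
set, subspaces in general position over a large finite extension; the size is `m`, after an injection
of the free module of rank `m` in a free module of smaller rank). If `x` is transcendental over `k`,
`Φ` is such a matrix over `k[P]`, and `1 - x Φ` is invertible over `K[P]`, then the coefficients of a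
column of the inverse span a finite dimensional `k`-subspace of `K` which contains `1` and is
invariant under `x`, so `x` is algebraic. The same argument, with `x` replaced by the matrix of a
second nonamenable group `Q`, works for `K[P x Q] = K[Q][P]`.
-/

namespace Pool.Agent.Results.MP_331e4f_al.Amenability

universe u v w

open Classical in
/-- Følner's condition: `G` is amenable. -/
def Amenable (G : Type*) [Group G] : Prop :=
  ∀ (S : Finset G) (ε : ℝ), 0 < ε →
    ∃ F : Finset G, F.Nonempty ∧ ∀ s ∈ S, ((F.filter fun g => s * g ∉ F).card : ℝ) ≤ ε * F.card

/-- Let `J(K[G]) = omega(K[G])`, and let `H` be a nonamenable subgroup of a homomorphic image `Q` of a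
subgroup `P` of `G`. Then `K` is algebraic over its prime field, and the centralizer of `H` in `Q` is
amenable. -/
theorem result (K : Type u) [Field K] (G : Type v) [Group G]
    (h : Ideal.jacobson (⊥ : Ideal (MonoidAlgebra K G)) =
        Ideal.span (Set.range (fun g : G => MonoidAlgebra.of K G g - 1)))
    (P : Subgroup G) (Q : Type w) [Group Q] (f : P →* Q) (hf : Function.Surjective f)
    (H : Subgroup Q) (hH : ¬ Amenable H) :
    Algebra.IsAlgebraic (⊥ : Subfield K) K ∧ Amenable (Subgroup.centralizer (H : Set Q)) := by
  have haugG : MP331e4f.AugRad K G := by
    intro g
    rw [← Ideal.jacobson_bot, h]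
    exact Ideal.subset_span ⟨g, rfl⟩
  have haug : MP331e4f.AugRad K Q := MP331e4fAm.augRad_of_surjective (haugG.restrict P) f hf
  constructor
  · by_contra hK
    rw [Algebra.isAlgebraic_def] at hK
    push Not at hK
    obtain ⟨x, hx⟩ := hK
    exact hH (MP331e4fAm.amen_of_transcendental hx (haug.restrict H))
  · refine (MP331e4fAm.amen_of_commute K haug H (Subgroup.centralizer (H : Set Q)) ?_).resolve_left hH
    intro a ha b hb
    exact (Subgroup.mem_centralizer_iff.1 hb) a ha

end Pool.Agent.Results.MP_331e4f_al.Amenability
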