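import Pool.Agent.Lib_MP_331e4f_al.PGroup
import Pool.Agent.Lib_MP_331e4f_al.Wobble
import Pool.Agent.Lib_MP_331e4f_al.Known

/-!
# Kaplansky's equivalence for groups of permutations of the integers of bounded displacement

The proof: if `J(K[G]) = omega(K[G])` then every square matrix over `K[P]`, `P` a subgroup, whose
augmentation is invertible, is invertible. Let a finitely generated `P` act on the integers with
bounded displacement. If the orbits are not uniformly bounded, then there are `c > 0` and `L0` such
that every window of length `L0` has a cut of at most `c` points, but arbitrarily long windows have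
no cut with fewer than `c` points. By Hall's theorem there are perfect matchings between
consecutive cuts; generic coefficient matrices (over a finite extension) make all the
corresponding block matrices invertible, and then the inverse of the matrix
`sum_s A_s s` cannot have finite propagation.
-/

namespace Pool.Agent.Results.MP_331e4f_al.BoundedDisplacement

/-- a permutation of the integers of bounded displacement -/
def BddDisp (f : Equiv.Perm ℤ) : Prop := ∃ r : ℤ, ∀ x : ℤ, |f x - x| ≤ r

/-- Kaplansky's equivalence holds for every field `K` and every nontrivial group `G` all of whose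
infinite finitely generated subgroups `P` have a homomorphism with infinite image to the group of
permutations of `ℤ` of bounded displacement (in particular for every group of permutations of
`ℤ` of bounded displacement). -/
theorem result (K : Type*) [Field K] (G : Type*) [Group G] [Nontrivial G]
    (hG : ∀ P : Subgroup G, P.FG → Infinite P →
      ∃ φ : P →* Equiv.Perm ℤ, (∀ g, BddDisp (φ g)) ∧ (Set.range φ).Infinite) :
    (Ideal.jacobson (⊥ : Ideal (MonoidAlgebra K G)) =
        Ideal.span (Set.range (fun g : G => MonoidAlgebra.of K G g - 1))) ↔
      ∃ p : ℕ, p.Prime ∧ CharP K p ∧ IsPGroup p G ∧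
        ∀ H : Subgroup G, H.FG → Finite H := by
  constructor
  · intro h
    have haug : MP331e4f.AugRad K G := by
      intro g
      rw [← Ideal.jacobson_bot, h]
      exact Ideal.subset_span ⟨g, rfl⟩
    obtain ⟨p, hp, hchar, hpG⟩ := haug.exists_prime
    refine ⟨p, hp, hchar, hpG, fun H hH => ?_⟩
    by_contra hinf
    have hinf' : Infinite H := not_finite_iff_infinite.1 hinf
    obtain ⟨φ, h1, h2⟩ := hG H hH hinf'
    exact h2 ((haug.restrict H).finite_range ((Group.fg_iff_subgroup_fg H).2 hH) φ h1)
  · rintro ⟨p, hp, hchar, hpG, hloc⟩
    exact MP331e4f.jacobson_eq_of_locallyFinite hp hpG hloc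

end Pool.Agent.Results.MP_331e4f_al.BoundedDisplacement
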