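import Pool.Agent.Lib_MP_331e4f_al.PGroup

/-!
# Proper subgroups of finitely generated subgroups lie in normal subgroups of index `p`
-/

namespace Pool.Agent.Results.MP_331e4f_al.MaximalSubgroups

/-- If `J(K[G]) = omega(K[G])`, `G` nontrivial, then `K` has prime characteristic `p`, `G` is a
`p`-group, and every proper subgroup `H` of a finitely generated subgroup `P` of `G` lies in a
normal subgroup of index `p` of `P`. -/
theorem result (K : Type*) [Field K] (G : Type*) [Group G] [Nontrivial G]
    (h : Ideal.jacobson (⊥ : Ideal (MonoidAlgebra K G)) =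
        Ideal.span (Set.range (fun g : G => MonoidAlgebra.of K G g - 1))) :
    ∃ p : ℕ, p.Prime ∧ CharP K p ∧ IsPGroup p G ∧
      ∀ P H : Subgroup G, P.FG → H < P →
        ∃ N : Subgroup G, H ≤ N ∧ N ≤ P ∧ (N.subgroupOf P).Normal ∧ N.relIndex P = p := by
  have haug : MP331e4f.AugRad K G := by
    intro g
    rw [← Ideal.jacobson_bot, h]
    exact Ideal.subset_span ⟨g, rfl⟩
  obtain ⟨p, hp, hchar, hpG⟩ := haug.exists_prime
  exact ⟨p, hp, hchar, hpG, fun P H hP hH => haug.exists_normal' hp hP hH⟩

end Pool.Agent.Results.MP_331e4f_al.MaximalSubgroups
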